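import Pool.Agent.H85.AU.Targets

/-!
# UNI: the union lemma (Mayer–Vietoris)
-/

open CategoryTheory CategoryTheory.Limits TopologicalSpace Topology Set

universe w

namespace Pool.Agent.H42.AU

open Pool.Agent.H85.AU

section

variable {X : Type} [TopologicalSpace X] {C : Type 1} [Category.{0} C] [Abelian C]

/-- the map `A_U ⊕ A_V → A_{U ∪ V}` -/
noncomputable def mvg (c : CutSys X C) (U V : Opens X) (A : C) :
    c.ob U A ⊞ c.ob V A ⟶ c.ob (U ⊔ V) A :=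
  biprod.desc (c.mp le_sup_left A) (c.mp le_sup_right A)

/-- the Mayer–Vietoris short complex -/
noncomputable def mvS (c : CutSys X C) (U V : Opens X) (A : C) : ShortComplex C where
  X₁ := c.ob (U ⊓ V) A
  X₂ := c.ob U A ⊞ c.ob V A
  X₃ := c.ob (U ⊔ V) A
  f := biprod.lift (c.mp inf_le_left A) (-(c.mp inf_le_right A))
  g := biprod.desc (c.mp le_sup_left A) (c.mp le_sup_right A)
  zero := mv_zero c.cut U V A

lemma mvS_exact (c : CutSys X C) (U V : Opens X) (A : C) : (mvS c U V A).ShortExact :=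
  c.mv U V A

/-- the morphism between Mayer–Vietoris sequences -/
noncomputable def mvHom (c : CutSys X C) {W₁ W₂ U₁ U₂ : Opens X} (h₁ : W₁ ≤ U₁) (h₂ : W₂ ≤ U₂)
    (A : C) : mvS c W₁ W₂ A ⟶ mvS c U₁ U₂ A where
  τ₁ := c.mp (inf_le_inf h₁ h₂) A
  τ₂ := biprod.map (c.mp h₁ A) (c.mp h₂ A)
  τ₃ := c.mp (sup_le_sup h₁ h₂) A
  comm₁₂ := by
    dsimp only [mvS]
    apply biprod.hom_ext
    · rw [Category.assoc, Category.assoc, biprod.map_fst, biprod.lift_fst, biprod.lift_fst_assoc,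
        CutSys.mp_mp, CutSys.mp_mp]
    · rw [Category.assoc, Category.assoc, biprod.map_snd, biprod.lift_snd, biprod.lift_snd_assoc,
        Preadditive.comp_neg, Preadditive.neg_comp, CutSys.mp_mp, CutSys.mp_mp]
  comm₂₃ := by
    dsimp only [mvS]
    apply biprod.hom_ext'
    · rw [biprod.inl_map_assoc, biprod.inl_desc, biprod.inl_desc_assoc, CutSys.mp_mp,
        CutSys.mp_mp]
    · rw [biprod.inr_map_assoc, biprod.inr_desc, biprod.inr_desc_assoc, CutSys.mp_mp,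
        CutSys.mp_mp]

end

theorem pf_UNI : T_UNI.{w} := by
  intro X _ C _ _ _ c A B n U₁ U₂ O V W₁ W₂ h₁ h₂ hV hW₁ hW₂ hWV hf₁ hf₂ hf hW
  have hU : U₁ ⊔ U₂ ≤ O := sup_le h₁ h₂
  -- the class on `U₁ ∪ U₂` is killed by the middle map
  have key : ∀ α : Abelian.Ext.{w} (c.ob O A) B n,
      ((CutSys.rs.{w} c A B n h₁).prod (CutSys.rs.{w} c A B n h₂)) α = 0 →
      (Abelian.Ext.mk₀ (mvg c U₁ U₂ A)).comp (CutSys.rs.{w} c A B n hU α) (zero_add n) = 0 := by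
    intro α hα
    have e₁ : CutSys.rs.{w} c A B n h₁ α = 0 := congrArg Prod.fst hα
    have e₂ : CutSys.rs.{w} c A B n h₂ α = 0 := congrArg Prod.snd hα
    apply Abelian.Ext.biprod_ext
    · rw [Abelian.Ext.mk₀_comp_mk₀_assoc, Abelian.Ext.comp_zero]
      have : (biprod.inl : c.ob U₁ A ⟶ c.ob U₁ A ⊞ c.ob U₂ A) ≫ mvg c U₁ U₂ A =
          c.mp le_sup_left A := biprod.inl_desc _ _
      rw [this, ← CutSys.rs_apply, CutSys.rs_rs]
      exact e₁
    · rw [Abelian.Ext.mk₀_comp_mk₀_assoc, Abelian.Ext.comp_zero]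
      have : (biprod.inr : c.ob U₂ A ⟶ c.ob U₁ A ⊞ c.ob U₂ A) ≫ mvg c U₁ U₂ A =
          c.mp le_sup_right A := biprod.inr_desc _ _
      rw [this, ← CutSys.rs_apply, CutSys.rs_rs]
      exact e₂
  have hprod : (range ((CutSys.rs.{w} c A B n h₁).prod (CutSys.rs.{w} c A B n h₂))).Finite := by
    refine (hf₁.prod hf₂).subset ?_
    rintro _ ⟨α, rfl⟩
    exact ⟨⟨α, rfl⟩, ⟨α, rfl⟩⟩
  rcases Nat.eq_zero_or_pos n with rfl | hn
  · refine finite_range_of_ker _ _ hprod {0} (Set.finite_singleton _) ?_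
    intro α hα
    have h0 := key α hα
    have : Epi (mvg c U₁ U₂ A) := (mvS_exact c U₁ U₂ A).epi_g
    have hg : CutSys.rs.{w} c A B 0 hU α = 0 := by
      apply Abelian.Ext.precomp_mk₀_injective_of_epi B (mvg c U₁ U₂ A)
      rw [map_zero]
      exact h0
    have hWU : W₁ ⊔ W₂ ≤ U₁ ⊔ U₂ := sup_le_sup hW₁ hW₂
    rw [Set.mem_singleton_iff, ← CutSys.rs_rs c A B 0 hWU hU, hg, map_zero]
  · obtain ⟨m, rfl⟩ : ∃ m, n = 1 + m := ⟨n - 1, by omega⟩
    have hfm := hf m (by omega)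
    let F : Abelian.Ext.{w} (c.ob V A) B m → Abelian.Ext.{w} (c.ob (W₁ ⊔ W₂) A) B (1 + m) :=
      fun y => (mvS_exact c W₁ W₂ A).extClass.comp (CutSys.rs.{w} c A B m hWV y) rfl
    refine finite_range_of_ker _ _ hprod (F '' range (CutSys.rs.{w} c A B m hV))
      (hfm.image _) ?_
    intro α hα
    obtain ⟨b, hb⟩ := Abelian.Ext.contravariant_sequence_exact₃ (mvS_exact c U₁ U₂ A) B
      (CutSys.rs.{w} c A B (1 + m) hU α) (key α hα) (rfl : 1 + m = 1 + m)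
    refine ⟨_, ⟨b, rfl⟩, ?_⟩
    have hWU : W₁ ⊔ W₂ ≤ U₁ ⊔ U₂ := sup_le_sup hW₁ hW₂
    rw [← CutSys.rs_rs c A B (1 + m) hWU hU, ← hb]
    show (mvS_exact c W₁ W₂ A).extClass.comp (CutSys.rs.{w} c A B m hWV
      (CutSys.rs.{w} c A B m hV b)) rfl = _
    rw [CutSys.rs_rs, CutSys.rs_apply, CutSys.rs_apply]
    have hnat := (ShortComplex.ShortExact.extClass_naturality.{w} (mvS_exact c W₁ W₂ A)
      (mvS_exact c U₁ U₂ A) (mvHom c hW₁ hW₂ A))
    have e₁ : (mvHom c hW₁ hW₂ A).τ₁ = c.mp (hWV.trans hV) A := rfl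
    have e₃ : (mvHom c hW₁ hW₂ A).τ₃ = c.mp hWU A := rfl
    rw [e₁, e₃] at hnat
    have a1 := Abelian.Ext.comp_assoc (mvS_exact c W₁ W₂ A).extClass
      (Abelian.Ext.mk₀.{w} (c.mp (hWV.trans hV) A)) b (add_zero 1) (zero_add m)
      (show 1 + 0 + m = 1 + m by omega)
    have a2 := Abelian.Ext.comp_assoc (Abelian.Ext.mk₀.{w} (c.mp hWU A))
      (mvS_exact c U₁ U₂ A).extClass b (zero_add 1) rfl
      (show 0 + 1 + m = 1 + m by omega)
    exact a1.symm.trans ((congrArg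
      (fun z : Abelian.Ext.{w} (mvS c W₁ W₂ A).X₃ (mvS c U₁ U₂ A).X₁ 1 =>
        z.comp b (rfl : 1 + m = 1 + m)) hnat).trans a2)

end Pool.Agent.H42.AU
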