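import Pool.Agent.H85.AU.Targets

/-!
# WIL: Wilder's theorem (finite image near compact sets)
-/

open CategoryTheory CategoryTheory.Limits TopologicalSpace Topology Set

universe w

namespace Pool.Agent.H42.AU

open Pool.Agent.H85.AU

theorem pf_WIL (hUNI : T_UNI.{w}) : T_WIL.{w} := by
  intro X _ _ _ C _ _ _ c A B
  suffices H : ∀ n : ℕ, ∀ O : Opens X, (∀ x ∈ O, CutSys.Good.{w} c A B x) →
      ∀ K : Set X, IsCompact K → K ⊆ O → ∃ U : Opens X, K ⊆ U ∧ ∃ h : U ≤ O,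
        (range (CutSys.rs.{w} c A B n h)).Finite from
    fun O hO K hK hKO n => H n O hO K hK hKO
  intro n
  induction n using Nat.strong_induction_on with
  | _ n ih =>
    intro O hO K hK hKO
    have hp : ∃ K₁ : Set X, IsCompact K₁ ∧ K ⊆ K₁ ∧ K₁ ⊆ O ∧ ∃ U : Opens X, K₁ ⊆ U ∧
        ∃ h : U ≤ O, (range (CutSys.rs.{w} c A B n h)).Finite := by
      refine hK.induction_on (p := fun S => ∃ K₁ : Set X, IsCompact K₁ ∧ S ⊆ K₁ ∧ K₁ ⊆ O ∧
        ∃ U : Opens X, K₁ ⊆ U ∧ ∃ h : U ≤ O, (range (CutSys.rs.{w} c A B n h)).Finite)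
        ?_ ?_ ?_ ?_
      · refine ⟨∅, isCompact_empty, subset_rfl, empty_subset _, ⊥, empty_subset _, bot_le, ?_⟩
        have hz : IsZero (c.ob ⊥ A) := c.bot A
        refine (Set.finite_singleton (0 : Abelian.Ext.{w} (c.ob ⊥ A) B n)).subset ?_
        rintro _ ⟨α, rfl⟩
        rw [Set.mem_singleton_iff]
        have h := Abelian.Ext.mk₀_id_comp
          (CutSys.rs.{w} c A B n (bot_le : (⊥ : Opens X) ≤ O) α)
        rw [hz.eq_of_src (𝟙 _) 0, Abelian.Ext.mk₀_zero, Abelian.Ext.zero_comp] at h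
        exact h.symm
      · rintro s t hst ⟨K₁, h1, h2, h3⟩
        exact ⟨K₁, h1, hst.trans h2, h3⟩
      · rintro s t ⟨K₁, hK₁, hs, hK₁O, U₁, hU₁, h₁, hf₁⟩ ⟨K₂, hK₂, ht, hK₂O, U₂, hU₂, h₂, hf₂⟩
        obtain ⟨V, hKV, hVU, hV⟩ : ∃ V : Opens X, K₁ ∩ K₂ ⊆ V ∧ ∃ hV : V ≤ U₁ ⊓ U₂,
            ∀ m, m + 1 = n → (range (CutSys.rs.{w} c A B m hV)).Finite := by
          rcases Nat.eq_zero_or_pos n with rfl | hn
          · exact ⟨U₁ ⊓ U₂, fun x hx => ⟨hU₁ hx.1, hU₂ hx.2⟩, le_refl _,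
              fun m hm => absurd hm (Nat.succ_ne_zero m)⟩
          · obtain ⟨V, h1, h2, h3⟩ := ih (n - 1) (by omega) (U₁ ⊓ U₂)
              (fun x hx => hO x (h₁ hx.1)) (K₁ ∩ K₂) (hK₁.inter hK₂)
              (fun x hx => ⟨hU₁ hx.1, hU₂ hx.2⟩)
            refine ⟨V, h1, h2, ?_⟩
            intro m hm
            obtain rfl : m = n - 1 := by omega
            exact h3
        obtain ⟨W₁, W₂, hW₁, hW₂, hWU₁, hWU₂, hWV⟩ :=
          exists_shrink hK₁.isClosed hK₂.isClosed U₁ U₂ V hU₁ hU₂ hKV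
        have hW : W₁ ⊔ W₂ ≤ O := sup_le (hWU₁.trans h₁) (hWU₂.trans h₂)
        refine ⟨K₁ ∪ K₂, hK₁.union hK₂, union_subset_union hs ht, union_subset hK₁O hK₂O,
          W₁ ⊔ W₂, ?_, hW, ?_⟩
        · rintro x (hx | hx)
          · exact Or.inl (hW₁ hx)
          · exact Or.inr (hW₂ hx)
        · exact hUNI X C c A B n U₁ U₂ O V W₁ W₂ h₁ h₂ hVU hWU₁ hWU₂ hWV hf₁ hf₂ hV hW
      · intro x hx
        obtain ⟨U, hxU, h, hf⟩ := hO x (hKO hx) n O (hKO hx)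
        obtain ⟨K₁, hK₁, hxK, hKU⟩ := exists_compact_subset U.isOpen hxU
        refine ⟨interior K₁, mem_nhdsWithin_of_mem_nhds (isOpen_interior.mem_nhds hxK), K₁, hK₁,
          interior_subset, hKU.trans h, U, hKU, h, hf⟩
    obtain ⟨K₁, -, h2, -, U, hU, h, hf⟩ := hp
    exact ⟨U, h2.trans hU, h, hf⟩

end Pool.Agent.H42.AU
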